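import Pool.Agent.Helper58.CP.Stmts

/-!
# Row TRIG of block D: trigonometry of the triangle of three mutually tangent discs
-/

namespace QD4

open CP

noncomputable section

theorem rho_sq {x y z : ℝ} (hx : 0 < x) (hy : 0 < y) (hz : 0 < z) :
    rho x y z ^ 2 * (x + y + z) = x * y * z := by
  have hs : 0 < x + y + z := by positivity
  have h0 : 0 ≤ x * y * z / (x + y + z) := by positivity
  unfold rho
  rw [Real.sq_sqrt h0]
  field_simp

theorem rho_pos {x y z : ℝ} (hx : 0 < x) (hy : 0 < y) (hz : 0 < z) : 0 < rho x y z := by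
  unfold rho
  exact Real.sqrt_pos.mpr (by positivity)

theorem rho_rot (x y z : ℝ) : rho y z x = rho x y z := by
  unfold rho
  congr 1
  rw [show y * z * x = x * y * z by ring, show y + z + x = x + y + z by ring]

theorem rho_rot2 (x y z : ℝ) : rho z x y = rho x y z := by
  unfold rho
  congr 1
  rw [show z * x * y = x * y * z by ring, show z + x + y = x + y + z by ring]

theorem rho_eq {x y z ρ : ℝ} (hx : 0 < x) (hy : 0 < y) (hz : 0 < z) (hρ : 0 < ρ)
    (h : ρ ^ 2 * (x + y + z) = x * y * z) : rho x y z = ρ := by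
  have hs : 0 < x + y + z := by positivity
  unfold rho
  rw [← h, mul_div_assoc, div_self hs.ne', mul_one, Real.sqrt_sq hρ.le]

theorem st_RHO : ST_RHO := by
  intro x y z ρ hx hy hz hρ h
  apply rho_eq hx hy hz hρ
  set X := x / ρ with hX
  set Y := y / ρ with hY
  set Z := z / ρ with hZ
  have h1 : Real.sin (Real.arctan X + Real.arctan Y + Real.arctan Z) = 0 := by
    rw [h]; exact Real.sin_pi
  rw [Real.sin_add, Real.sin_add, Real.cos_add, Real.sin_arctan, Real.sin_arctan, Real.sin_arctan,
    Real.cos_arctan, Real.cos_arctan, Real.cos_arctan] at h1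
  have hXs : 0 < √(1 + X ^ 2) := Real.sqrt_pos.mpr (by positivity)
  have hYs : 0 < √(1 + Y ^ 2) := Real.sqrt_pos.mpr (by positivity)
  have hZs : 0 < √(1 + Z ^ 2) := Real.sqrt_pos.mpr (by positivity)
  have h2 : X + Y + Z - X * Y * Z = 0 := by
    have : (X / √(1 + X ^ 2) * (1 / √(1 + Y ^ 2)) + 1 / √(1 + X ^ 2) * (Y / √(1 + Y ^ 2))) *
        (1 / √(1 + Z ^ 2)) +
        (1 / √(1 + X ^ 2) * (1 / √(1 + Y ^ 2)) - X / √(1 + X ^ 2) * (Y / √(1 + Y ^ 2))) *
        (Z / √(1 + Z ^ 2)) =
        (X + Y + Z - X * Y * Z) * (√(1 + X ^ 2) * √(1 + Y ^ 2) * √(1 + Z ^ 2))⁻¹ := by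
      field_simp
      ring
    rw [this] at h1
    rcases mul_eq_zero.mp h1 with h3 | h3
    · exact h3
    · exfalso
      have : 0 < (√(1 + X ^ 2) * √(1 + Y ^ 2) * √(1 + Z ^ 2))⁻¹ := by positivity
      linarith
  have hx' : x = X * ρ := by rw [hX]; field_simp
  have hy' : y = Y * ρ := by rw [hY]; field_simp
  have hz' : z = Z * ρ := by rw [hZ]; field_simp
  rw [hx', hy', hz']
  linear_combination ρ ^ 3 * h2

theorem ang_sum {x y z : ℝ} (hx : 0 < x) (hy : 0 < y) (hz : 0 < z) :
    ang x y z + ang y z x + ang z x y = Real.pi := by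
  have hr := rho_pos hx hy hz
  have h2 := rho_sq hx hy hz
  unfold ang
  rw [rho_rot x y z, rho_rot2 x y z]
  set r := rho x y z with hrdef
  have hs : 0 < x + y + z := by positivity
  have hab : r / x * (r / y) = z / (x + y + z) := by
    rw [div_mul_div_comm, div_eq_div_iff (by positivity) (by positivity)]
    linear_combination h2
  have hlt : r / x * (r / y) < 1 := by
    rw [hab, div_lt_one hs]
    linarith
  have h3 : Real.arctan (r / x) + Real.arctan (r / y) = Real.pi / 2 - Real.arctan (r / z) := by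
    rw [Real.arctan_add hlt, ← Real.arctan_inv_of_pos (by positivity : 0 < r / z)]
    congr 1
    rw [hab]
    have : 1 - z / (x + y + z) = (x + y) / (x + y + z) := by field_simp; ring
    rw [this]
    rw [inv_div]
    field_simp
    linear_combination (x + y) * h2
  linarith

theorem ang_pos {x y z : ℝ} (hx : 0 < x) (hy : 0 < y) (hz : 0 < z) : 0 < ang x y z := by
  unfold ang
  have hr := rho_pos hx hy hz
  have : 0 < Real.arctan (rho x y z / x) := Real.arctan_pos.mpr (by positivity)
  linarith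

theorem ang_lt {x y z : ℝ} : ang x y z < Real.pi := by
  unfold ang
  have : Real.arctan (rho x y z / x) < Real.pi / 2 := Real.arctan_lt_pi_div_two _
  linarith

theorem st_ANG : ST_ANG := fun _ _ _ hx hy hz => ⟨ang_pos hx hy hz, ang_lt, ang_sum hx hy hz⟩

theorem exp_neg_ang {a r : ℝ} (ha : 0 < a) :
    Complex.exp (((-(2 * Real.arctan (r / a)) : ℝ) : ℂ) * Complex.I) =
      ((a : ℂ) - r * Complex.I) / ((a : ℂ) + r * Complex.I) := by
  set θ := Real.arctan (r / a) with hθ
  have hc : Real.cos θ ≠ 0 := (Real.cos_arctan_pos _).ne'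
  have hs : Real.sin θ * a = Real.cos θ * r := by
    have : Real.tan θ = r / a := Real.tan_arctan _
    rw [Real.tan_eq_sin_div_cos] at this
    field_simp at this
    linear_combination this
  have hne : (a : ℂ) + r * Complex.I ≠ 0 := by
    intro h
    have := congrArg Complex.re h
    simp at this
    exact ha.ne' this
  have hsC : (Real.sin θ : ℂ) * a = Real.cos θ * r := by exact_mod_cast hs
  have haC : (a : ℂ) ≠ 0 := by exact_mod_cast ha.ne'
  have hcC : (Real.cos θ : ℂ) ≠ 0 := by exact_mod_cast hc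
  have e1 : Complex.exp ((θ : ℂ) * Complex.I) = Real.cos θ + Real.sin θ * Complex.I := by
    rw [Complex.exp_mul_I]; simp
  have e2 : Complex.exp (-((θ : ℂ) * Complex.I)) = Real.cos θ - Real.sin θ * Complex.I := by
    rw [← neg_mul, Complex.exp_mul_I]; simp [sub_eq_add_neg]
  have e3 : Complex.exp (((-(2 * θ) : ℝ) : ℂ) * Complex.I) =
      Complex.exp (-((θ : ℂ) * Complex.I)) * Complex.exp (-((θ : ℂ) * Complex.I)) := by
    rw [← Complex.exp_add]
    congr 1
    push_cast
    ring
  have e4 : Complex.exp ((θ : ℂ) * Complex.I) * Complex.exp (-((θ : ℂ) * Complex.I)) = 1 := by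
    rw [← Complex.exp_add]; simp
  rw [e3, eq_div_iff hne]
  have e5 : (a : ℂ) + r * Complex.I = a / Real.cos θ * Complex.exp ((θ : ℂ) * Complex.I) := by
    rw [e1]
    field_simp
    linear_combination (-Complex.I) * hsC
  have e6 : (a : ℂ) - r * Complex.I = a / Real.cos θ * Complex.exp (-((θ : ℂ) * Complex.I)) := by
    rw [e2]
    field_simp
    linear_combination (Complex.I) * hsC
  rw [e5, e6]
  linear_combination (a / Real.cos θ * Complex.exp (-((θ : ℂ) * Complex.I))) * e4

theorem st_CLO : ST_CLO := by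
  intro x y z hx hy hz
  have hr := rho_pos hx hy hz
  have h2 := rho_sq hx hy hz
  have hA : ang y z x = 2 * Real.arctan (rho x y z / y) := by unfold ang; rw [rho_rot x y z]
  have hB : ang z x y = 2 * Real.arctan (rho x y z / z) := by unfold ang; rw [rho_rot2 x y z]
  set r := rho x y z with hrdef
  rw [hA, hB]
  set A := 2 * Real.arctan (r / y) with hAdef
  set B := 2 * Real.arctan (r / z) with hBdef
  have eA : Complex.exp (((-A : ℝ) : ℂ) * Complex.I) =
      ((y : ℂ) - r * Complex.I) / ((y : ℂ) + r * Complex.I) := exp_neg_ang hy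
  have eB : Complex.exp (((-B : ℝ) : ℂ) * Complex.I) =
      ((z : ℂ) - r * Complex.I) / ((z : ℂ) + r * Complex.I) := exp_neg_ang hz
  have e1 : Complex.exp (((Real.pi - A : ℝ) : ℂ) * Complex.I) =
      - Complex.exp (((-A : ℝ) : ℂ) * Complex.I) := by
    have : (((Real.pi - A : ℝ) : ℂ) * Complex.I) =
        (Real.pi : ℂ) * Complex.I + ((-A : ℝ) : ℂ) * Complex.I := by push_cast; ring
    rw [this, Complex.exp_add, Complex.exp_pi_mul_I]
    ring
  have e2 : Complex.exp (((2 * Real.pi - A - B : ℝ) : ℂ) * Complex.I) =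
      Complex.exp (((-A : ℝ) : ℂ) * Complex.I) * Complex.exp (((-B : ℝ) : ℂ) * Complex.I) := by
    have : (((2 * Real.pi - A - B : ℝ) : ℂ) * Complex.I) =
        2 * (Real.pi : ℂ) * Complex.I + (((-A : ℝ) : ℂ) * Complex.I + ((-B : ℝ) : ℂ) * Complex.I) := by
      push_cast; ring
    rw [this, Complex.exp_add, Complex.exp_two_pi_mul_I, Complex.exp_add]
    ring
  rw [e1, e2, eA, eB]
  have hy0 : (y : ℂ) + r * Complex.I ≠ 0 := by
    intro h
    have := congrArg Complex.re h
    simp at this
    exact hy.ne' this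
  have hz0 : (z : ℂ) + r * Complex.I ≠ 0 := by
    intro h
    have := congrArg Complex.re h
    simp at this
    exact hz.ne' this
  have h2C : (r : ℂ) ^ 2 * (x + y + z) = x * y * z := by exact_mod_cast h2
  have hI : Complex.I ^ 2 = -1 := Complex.I_sq
  field_simp
  push_cast
  linear_combination (-2 : ℂ) * h2C + ((x : ℂ) + y) * (r : ℂ) ^ 2 * hI +
    ((y : ℂ) + z) * (r : ℂ) ^ 2 * hI + ((z : ℂ) + x) * (r : ℂ) ^ 2 * hI

end

end QD4
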